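import Mathlib
import Pool.Agent.Q182.Gold2

/-!
# The weighted golden mean spectrum is not equidistributed modulo one
-/

set_option autoImplicit false

open Set Filter Topology
open scoped goldenRatio

namespace Pool.Agent.Results.MP_287b0d_an.NotEquidistributed

open Pool.Agent.Q182.Gold

/-! ### Finiteness -/

lemma fin2 (R1 R2 : ℝ) :
    {x : ℝ | ∃ a b : ℤ, x = a + b * φ ∧ |(a : ℝ) + b * ψ| ≤ R1 ∧ |x| ≤ R2}.Finite := by
  obtain ⟨M, hM⟩ := exists_nat_ge (3 * (|R1| + |R2|))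
  refine ((Set.finite_Icc ((-(M : ℤ), -(M : ℤ)) : ℤ × ℤ) ((M : ℤ), (M : ℤ))).image
    (fun p : ℤ × ℤ => (p.1 : ℝ) + p.2 * φ)).subset ?_
  rintro x ⟨a, b, hx, h1, h2⟩
  have hb := φ_bounds
  have hs : (1 : ℝ) ≤ φ - ψ := by
    have := Real.goldenConj_neg
    linarith
  have h3 : |(b : ℝ)| ≤ |R1| + |R2| := by
    have e : (b : ℝ) * (φ - ψ) = x - (a + b * ψ) := by rw [hx]; ring
    have e2 : |(b : ℝ)| * (φ - ψ) ≤ |x| + |(a : ℝ) + b * ψ| := by
      rw [← abs_of_pos (show (0 : ℝ) < φ - ψ by linarith), ← abs_mul, e]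
      exact abs_sub _ _
    have e3 := le_abs_self R1
    have e4 := le_abs_self R2
    nlinarith [abs_nonneg (b : ℝ)]
  have h4 : |(a : ℝ)| ≤ 3 * (|R1| + |R2|) := by
    have e : (a : ℝ) = x - b * φ := by rw [hx]; ring
    rw [e]
    have e2 := abs_sub x ((b : ℝ) * φ)
    rw [abs_mul, abs_of_pos (show (0 : ℝ) < φ by linarith)] at e2
    have e4 := le_abs_self R2
    have e5 := abs_nonneg R1
    nlinarith [abs_nonneg (b : ℝ)]
  have h5 : |(a : ℝ)| ≤ M := h4.trans hM
  have h6 : |(b : ℝ)| ≤ M := by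
    have : |R1| + |R2| ≤ 3 * (|R1| + |R2|) := by
      have e5 := abs_nonneg R1
      have e6 := abs_nonneg R2
      linarith
    exact h3.trans (this.trans hM)
  rw [abs_le] at h5 h6
  refine ⟨(a, b), ⟨⟨?_, ?_⟩, ⟨?_, ?_⟩⟩, hx.symm⟩
  · exact_mod_cast h5.1
  · exact_mod_cast h6.1
  · exact_mod_cast h5.2
  · exact_mod_cast h6.2

lemma fin_spec (R : ℝ) : {x : ℝ | (∃ n, N n x ≠ 0) ∧ |x| ≤ R}.Finite := by
  refine (fin2 (φ ^ 2) R).subset ?_
  rintro x ⟨⟨n, hn⟩, hx⟩
  obtain ⟨a, b, h1, h2⟩ := rep hn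
  exact ⟨a, b, h1, h2, hx⟩

/-- the bound for the number of points in a short interval -/
noncomputable def K0 : ℕ := (fin2 (2 * φ ^ 2) 2).toFinset.card

lemma count (s : Finset ℝ) (hs : ∀ x ∈ s, ∃ n, N n x ≠ 0) (hd : ∀ x ∈ s, ∀ y ∈ s, |x - y| ≤ 2) :
    s.card ≤ K0 := by
  rcases s.eq_empty_or_nonempty with h | ⟨x0, hx0⟩
  · rw [h]; simp
  · unfold K0
    refine Finset.card_le_card_of_injOn (fun x => x - x0) ?_ ?_
    · intro x hx
      rw [Finset.mem_coe] at hx ⊢
      rw [Set.Finite.mem_toFinset]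
      obtain ⟨n, hn⟩ := hs x hx
      obtain ⟨m, hm⟩ := hs x0 hx0
      obtain ⟨a, b, h1, h2⟩ := rep hn
      obtain ⟨a', b', h1', h2'⟩ := rep hm
      refine ⟨a - a', b - b', ?_, ?_, hd x hx x0 hx0⟩
      · push_cast
        rw [h1, h1']
        ring
      · have e : ((a - a' : ℤ) : ℝ) + ((b - b' : ℤ) : ℝ) * ψ =
            (a + b * ψ) - (a' + b' * ψ) := by push_cast; ring
        rw [e]
        have := abs_sub ((a : ℝ) + b * ψ) (a' + b' * ψ)
        linarith
    · intro x _ y _ h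
      simpa using h

/-! ### Sums -/

/-- bounded support -/
def BS (g : ℝ → ℝ) : Prop := ∃ R, ∀ x, g x ≠ 0 → |x| ≤ R

noncomputable def Sm (g : ℝ → ℝ) : ℝ := ∑ᶠ x, mu x * g x

lemma fin_supp {g : ℝ → ℝ} (hg : BS g) : (Function.support fun x => mu x * g x).Finite := by
  obtain ⟨R, hR⟩ := hg
  refine (fin_spec R).subset ?_
  intro x hx
  rw [Function.mem_support] at hx
  exact ⟨mu_ne (left_ne_zero_of_mul hx), hR x (right_ne_zero_of_mul hx)⟩

lemma BS_comp {g : ℝ → ℝ} (hg : BS g) (c : ℝ) : BS fun y => g (φ * y + c) := by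
  obtain ⟨R, hR⟩ := hg
  refine ⟨|R| + |c|, fun y hy => ?_⟩
  have h1 := hR _ hy
  have hb := φ_bounds
  have h2 : |φ * y| ≤ |φ * y + c| + |c| := by
    have := abs_sub (φ * y + c) c
    rwa [add_sub_cancel_right] at this
  rw [abs_mul, abs_of_pos (show (0 : ℝ) < φ by linarith)] at h2
  have h3 := le_abs_self R
  nlinarith [abs_nonneg y]

lemma Sm_add {g h : ℝ → ℝ} (hg : BS g) (hh : BS h) : Sm (fun x => g x + h x) = Sm g + Sm h := by
  unfold Sm
  rw [← finsum_add_distrib (fin_supp hg) (fin_supp hh)]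
  refine finsum_congr fun x => ?_
  ring

lemma Sm_smul (c : ℝ) (g : ℝ → ℝ) : Sm (fun x => c * g x) = c * Sm g := by
  unfold Sm
  rw [mul_finsum]
  refine finsum_congr fun x => ?_
  ring

lemma BS_mul {g : ℝ → ℝ} (hg : BS g) (h : ℝ → ℝ) : BS fun x => g x * h x := by
  obtain ⟨R, hR⟩ := hg
  exact ⟨R, fun x hx => hR x (left_ne_zero_of_mul hx)⟩

lemma BS_add {g h : ℝ → ℝ} (hg : BS g) (hh : BS h) : BS fun x => g x + h x := by
  obtain ⟨R, hR⟩ := hg
  obtain ⟨R', hR'⟩ := hh
  refine ⟨max R R', fun x hx => ?_⟩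
  by_cases h1 : g x = 0
  · have : h x ≠ 0 := by
      intro h2
      apply hx
      show g x + h x = 0
      rw [h1, h2, add_zero]
    exact (hR' x this).trans (le_max_right _ _)
  · exact (hR x h1).trans (le_max_left _ _)

lemma BS_smul {g : ℝ → ℝ} (hg : BS g) (c : ℝ) : BS fun x => c * g x := by
  obtain ⟨R, hR⟩ := hg
  exact ⟨R, fun x hx => hR x (right_ne_zero_of_mul hx)⟩

lemma BS_sub {g h : ℝ → ℝ} (hg : BS g) (hh : BS h) : BS fun x => g x - h x := by
  have := BS_add hg (BS_smul hh (-1))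
  have e : (fun x => g x + -1 * h x) = fun x => g x - h x := by funext x; ring
  rwa [e] at this

lemma Sm_sub {g h : ℝ → ℝ} (hg : BS g) (hh : BS h) : Sm (fun x => g x - h x) = Sm g - Sm h := by
  have := Sm_add hg (BS_smul hh (-1))
  rw [Sm_smul] at this
  have e : (fun x => g x + -1 * h x) = fun x => g x - h x := by funext x; ring
  rw [e] at this
  rw [this]
  ring

lemma Sm_mono {g h : ℝ → ℝ} (hg : BS g) (hh : BS h)
    (hle : ∀ x, (∃ n, N n x ≠ 0) → g x ≤ h x) : Sm g ≤ Sm h := by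
  unfold Sm
  have h1 := fin_supp hg
  have h2 := fin_supp hh
  rw [finsum_eq_sum_of_support_subset _ (s := (h1.union h2).toFinset) (by simp),
    finsum_eq_sum_of_support_subset _ (s := (h1.union h2).toFinset) (by simp)]
  refine Finset.sum_le_sum fun x _ => ?_
  by_cases h0 : mu x = 0
  · rw [h0, zero_mul, zero_mul]
  · exact mul_le_mul_of_nonneg_left (hle x (mu_ne h0)) (mu_nonneg x)

/-- the equivalence `y ↦ φ y + c` -/
noncomputable def ec (c : ℝ) : ℝ ≃ ℝ where
  toFun y := φ * y + c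
  invFun x := (x - c) / φ
  left_inv y := by
    have hφ : (φ : ℝ) ≠ 0 := Real.goldenRatio_ne_zero
    field_simp
    ring
  right_inv x := by
    have hφ : (φ : ℝ) ≠ 0 := Real.goldenRatio_ne_zero
    field_simp
    ring

lemma Sm_shift (g : ℝ → ℝ) (c : ℝ) :
    ∑ᶠ x, mu ((x - c) / φ) * g x = Sm (fun y => g (φ * y + c)) := by
  rw [← finsum_comp_equiv (ec c)]
  unfold Sm
  refine finsum_congr fun y => ?_
  have : ((ec c) y - c) / φ = y := (ec c).left_inv y
  rw [this]
  rfl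

lemma fin_supp_shift {g : ℝ → ℝ} (hg : BS g) (c : ℝ) :
    (Function.support fun x => mu ((x - c) / φ) * g x).Finite := by
  have h1 := fin_supp (BS_comp hg c)
  refine (h1.image (ec c)).subset ?_
  intro x hx
  refine ⟨(ec c).symm x, ?_, (ec c).apply_symm_apply x⟩
  rw [Function.mem_support] at hx ⊢
  have h2 : φ * ((ec c).symm x) + c = x := (ec c).apply_symm_apply x
  rw [h2]
  exact hx

lemma Sm_rec {g : ℝ → ℝ} (hg : BS g) : Sm g = lam⁻¹ * (2 * Sm (fun y => g (φ * y + 0)) +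
    Sm (fun y => g (φ * y + 1)) + Sm (fun y => g (φ * y + -1))) := by
  have f0 := fin_supp_shift hg 0
  have f1 := fin_supp_shift hg 1
  have f2 := fin_supp_shift hg (-1)
  rw [← Sm_shift g 0, ← Sm_shift g 1, ← Sm_shift g (-1)]
  rw [mul_finsum, ← finsum_add_distrib _ f1, ← finsum_add_distrib _ f2, mul_finsum]
  · unfold Sm
    refine finsum_congr fun x => ?_
    rw [mu_rec x, sub_zero, sub_neg_eq_add]
    ring
  · refine (f0.union f1).subset ?_
    intro x hx
    rw [Function.mem_support] at hx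
    by_contra hcon
    rw [mem_union, not_or, Function.mem_support, Function.mem_support, not_not, not_not] at hcon
    apply hx
    rw [hcon.1, hcon.2]
    ring
  · refine f0.subset ?_
    intro x hx
    rw [Function.mem_support] at hx ⊢
    exact right_ne_zero_of_mul hx

lemma Sm_bound {h : ℝ → ℝ} (hh : BS h) (h1 : ∀ x, |h x| ≤ 1) {J1 J2 : Set ℝ}
    (hJ : ∀ x, h x ≠ 0 → x ∈ J1 ∨ x ∈ J2) (hJ1 : ∀ x ∈ J1, ∀ y ∈ J1, |x - y| ≤ 2)
    (hJ2 : ∀ x ∈ J2, ∀ y ∈ J2, |x - y| ≤ 2) : |Sm h| ≤ mu 0 * (2 * K0) := by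
  classical
  unfold Sm
  have hf := fin_supp hh
  rw [finsum_eq_sum_of_support_subset _ (s := hf.toFinset) (by simp)]
  have hm0 := mu_nonneg 0
  have hcard : hf.toFinset.card ≤ K0 + K0 := by
    have hmem : ∀ x ∈ hf.toFinset, (∃ n, N n x ≠ 0) ∧ (x ∈ J1 ∨ x ∈ J2) := by
      intro x hx
      rw [Set.Finite.mem_toFinset, Function.mem_support] at hx
      exact ⟨mu_ne (left_ne_zero_of_mul hx), hJ x (right_ne_zero_of_mul hx)⟩
    have e : hf.toFinset ⊆ hf.toFinset.filter (fun x => x ∈ J1) ∪ hf.toFinset.filter (fun x => x ∈ J2) := by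
      intro x hx
      rw [Finset.mem_union, Finset.mem_filter, Finset.mem_filter]
      rcases (hmem x hx).2 with h | h
      · exact Or.inl ⟨hx, h⟩
      · exact Or.inr ⟨hx, h⟩
    refine (Finset.card_le_card e).trans ((Finset.card_union_le _ _).trans (add_le_add ?_ ?_))
    · apply count
      · intro x hx
        exact (hmem x (Finset.mem_filter.1 hx).1).1
      · intro x hx y hy
        exact hJ1 x (Finset.mem_filter.1 hx).2 y (Finset.mem_filter.1 hy).2
    · apply count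
      · intro x hx
        exact (hmem x (Finset.mem_filter.1 hx).1).1
      · intro x hx y hy
        exact hJ2 x (Finset.mem_filter.1 hx).2 y (Finset.mem_filter.1 hy).2
  calc |∑ x ∈ hf.toFinset, mu x * h x| ≤ ∑ x ∈ hf.toFinset, |mu x * h x| :=
        Finset.abs_sum_le_sum_abs _ _
    _ ≤ ∑ x ∈ hf.toFinset, mu 0 := by
        refine Finset.sum_le_sum fun x _ => ?_
        rw [abs_mul, abs_of_nonneg (mu_nonneg x)]
        calc mu x * |h x| ≤ mu 0 * 1 := mul_le_mul (mu_le x) (h1 x) (abs_nonneg _) hm0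
          _ = mu 0 := mul_one _
    _ = hf.toFinset.card * mu 0 := by rw [Finset.sum_const, nsmul_eq_mul]
    _ ≤ (K0 + K0 : ℕ) * mu 0 := by gcongr
    _ = mu 0 * (2 * K0) := by push_cast; ring

/-- the indicator of `[0,R]` -/
noncomputable def ind (R x : ℝ) : ℝ := if 0 ≤ x ∧ x ≤ R then 1 else 0

lemma BS_ind (R : ℝ) : BS (ind R) := by
  refine ⟨R, fun x hx => ?_⟩
  unfold ind at hx
  have : 0 ≤ x ∧ x ≤ R := by
    by_contra h
    rw [if_neg h] at hx
    exact hx rfl
  rw [abs_of_nonneg this.1]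
  exact this.2

lemma ind_nonneg (R x : ℝ) : 0 ≤ ind R x := by unfold ind; split_ifs <;> norm_num

noncomputable def C (t R : ℝ) : ℝ := Sm fun x => ind R x * Real.cos (2 * Real.pi * t * x)

noncomputable def W (R : ℝ) : ℝ := Sm (ind R)

lemma C_zero (R : ℝ) : C 0 R = W R := by
  unfold C W
  congr 1
  funext x
  simp

lemma main_rec (t R : ℝ) :
    |C t R - lam⁻¹ * (2 + 2 * Real.cos (2 * Real.pi * t)) * C (t * φ) (R / φ)| ≤
      lam⁻¹ * (2 * (mu 0 * (2 * K0))) := by
  have hb := φ_bounds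
  have hφ : (0 : ℝ) < φ := by linarith
  set g : ℝ → ℝ := fun x => ind R x * Real.cos (2 * Real.pi * t * x) with hg
  have hgB : BS g := BS_mul (BS_ind R) _
  have h1 : C t R = lam⁻¹ * (2 * Sm (fun y => g (φ * y + 0)) +
    Sm (fun y => g (φ * y + 1)) + Sm (fun y => g (φ * y + -1))) := Sm_rec hgB
  -- the comparison functions
  set q : ℝ → ℝ → ℝ := fun c y => ind R (φ * y) * Real.cos (2 * Real.pi * t * (φ * y + c)) with hq
  have hI : BS fun y => ind R (φ * y) := by
    have := BS_comp (BS_ind R) 0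
    simpa only [add_zero] using this
  have hqB : ∀ c, BS (q c) := fun c => BS_mul hI _
  have hcomp : ∀ c : ℝ, |c| ≤ 1 → |Sm (fun y => g (φ * y + c)) - Sm (q c)| ≤ mu 0 * (2 * K0) := by
    intro c hc
    rw [abs_le] at hc
    rw [← Sm_sub (BS_comp hgB c) (hqB c)]
    refine Sm_bound (J1 := {y | -1 ≤ φ * y ∧ φ * y ≤ 1}) (J2 := {y | R - 1 ≤ φ * y ∧ φ * y ≤ R + 1})
      (BS_sub (BS_comp hgB c) (hqB c)) ?_ ?_ ?_ ?_
    · intro y
      simp only [hg, hq]
      rw [← sub_mul, abs_mul]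
      have e1 : |ind R (φ * y + c) - ind R (φ * y)| ≤ 1 := by
        unfold ind; split_ifs <;> norm_num
      have e2 := Real.abs_cos_le_one (2 * Real.pi * t * (φ * y + c))
      exact mul_le_one₀ e1 (abs_nonneg _) e2
    · intro y hy
      simp only [hg, hq] at hy
      rw [← sub_mul] at hy
      have e1 := left_ne_zero_of_mul hy
      unfold ind at e1
      by_contra hcon
      rw [mem_ofPred_eq, mem_ofPred_eq, not_or, not_and_or, not_and_or] at hcon
      apply e1
      by_cases ha : 0 ≤ φ * y + c ∧ φ * y + c ≤ R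
      · have hbb : 0 ≤ φ * y ∧ φ * y ≤ R := by
          constructor
          · by_contra h
            rcases hcon.1 with h2 | h2 <;> linarith [ha.1]
          · by_contra h
            rcases hcon.2 with h2 | h2 <;> linarith [ha.2]
        rw [if_pos ha, if_pos hbb, sub_self]
      · have hbb : ¬ (0 ≤ φ * y ∧ φ * y ≤ R) := by
          intro hbb
          apply ha
          constructor
          · by_contra h
            rcases hcon.1 with h2 | h2 <;> linarith [hbb.1]
          · by_contra h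
            rcases hcon.2 with h2 | h2 <;> linarith [hbb.2]
        rw [if_neg ha, if_neg hbb, sub_self]
    · rintro x ⟨hx1, hx2⟩ y ⟨hy1, hy2⟩
      have e : φ * |x - y| ≤ 2 := by
        have e1 : φ * |x - y| = |φ * (x - y)| := by rw [abs_mul, abs_of_pos hφ]
        rw [e1, abs_le, mul_sub]
        constructor <;> linarith
      nlinarith [abs_nonneg (x - y)]
    · rintro x ⟨hx1, hx2⟩ y ⟨hy1, hy2⟩
      have e : φ * |x - y| ≤ 2 := by
        have e1 : φ * |x - y| = |φ * (x - y)| := by rw [abs_mul, abs_of_pos hφ]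
        rw [e1, abs_le, mul_sub]
        constructor <;> linarith
      nlinarith [abs_nonneg (x - y)]
  have hzero : Sm (fun y => g (φ * y + 0)) = Sm (q 0) := by
    congr 1
    funext y
    simp only [hg, hq, add_zero]
  have hsum : 2 * Sm (q 0) + Sm (q 1) + Sm (q (-1)) =
      (2 + 2 * Real.cos (2 * Real.pi * t)) * C (t * φ) (R / φ) := by
    unfold C
    rw [← Sm_smul, ← Sm_smul, ← Sm_add (BS_smul (hqB 0) 2) (hqB 1),
      ← Sm_add (BS_add (BS_smul (hqB 0) 2) (hqB 1)) (hqB (-1))]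
    congr 1
    funext y
    have e1 : ind R (φ * y) = ind (R / φ) y := by
      unfold ind
      congr 1
      rw [eq_iff_iff]
      constructor
      · rintro ⟨h1, h2⟩
        refine ⟨nonneg_of_mul_nonneg_right h1 hφ, ?_⟩
        rw [le_div_iff₀ hφ]; linarith
      · rintro ⟨h1, h2⟩
        rw [le_div_iff₀ hφ] at h2
        exact ⟨by positivity, by linarith⟩
    simp only [hq]
    rw [e1]
    have e2 : 2 * Real.pi * t * (φ * y + 1) = 2 * Real.pi * (t * φ) * y + 2 * Real.pi * t := by ring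
    have e3 : 2 * Real.pi * t * (φ * y + -1) = 2 * Real.pi * (t * φ) * y - 2 * Real.pi * t := by ring
    have e4 : 2 * Real.pi * t * (φ * y + 0) = 2 * Real.pi * (t * φ) * y := by ring
    rw [e2, e3, e4, Real.cos_add, Real.cos_sub]
    ring
  have hl := lam_pos
  rw [h1, mul_assoc, ← hsum, hzero, ← mul_sub, abs_mul, abs_of_pos (inv_pos.2 hl)]
  refine mul_le_mul_of_nonneg_left ?_ (inv_pos.2 hl).le
  have c1 := hcomp 1 (by norm_num)
  have c2 := hcomp (-1) (by norm_num)
  calc |2 * Sm (q 0) + Sm (fun y => g (φ * y + 1)) + Sm (fun y => g (φ * y + -1)) -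
        (2 * Sm (q 0) + Sm (q 1) + Sm (q (-1)))|
      = |(Sm (fun y => g (φ * y + 1)) - Sm (q 1)) + (Sm (fun y => g (φ * y + -1)) - Sm (q (-1)))| := by
        congr 1; ring
    _ ≤ _ := abs_add_le _ _
    _ ≤ _ := by linarith

/-! ### Unboundedness of the total weights -/

lemma W_mono : Monotone W := by
  intro a b h
  refine Sm_mono (BS_ind a) (BS_ind b) fun x _ => ?_
  unfold ind
  split_ifs with h1 h2
  · exact le_rfl
  · exact absurd ⟨h1.1, h1.2.trans h⟩ h2
  · norm_num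
  · exact le_rfl

noncomputable def sy (R x : ℝ) : ℝ := if |x| ≤ R then 1 else 0

lemma BS_sy (R : ℝ) : BS (sy R) := by
  refine ⟨R, fun x hx => ?_⟩
  unfold sy at hx
  by_contra h
  rw [if_neg h] at hx
  exact hx rfl

lemma sy_le (R : ℝ) : Sm (sy R) ≤ 2 * W R := by
  have hneg : Sm (fun x => ind R (-x)) = W R := by
    unfold W Sm
    refine Eq.trans (finsum_congr fun x => ?_)
      (finsum_comp_equiv (Equiv.neg ℝ) (f := fun x => mu x * ind R x))
    show mu x * ind R (-x) = mu (-x) * ind R (-x)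
    rw [mu_neg]
  have hB : BS fun x => ind R (-x) := by
    obtain ⟨M, hM⟩ := BS_ind R
    exact ⟨M, fun x hx => by rw [← abs_neg]; exact hM _ hx⟩
  have : Sm (sy R) ≤ Sm (fun x => ind R x + ind R (-x)) := by
    refine Sm_mono (BS_sy R) (BS_add (BS_ind R) hB) fun x _ => ?_
    unfold sy
    have i1 := ind_nonneg R x
    have i2 := ind_nonneg R (-x)
    split_ifs with h
    · rw [abs_le] at h
      rcases le_total 0 x with hx | hx
      · have : ind R x = 1 := if_pos ⟨hx, h.2⟩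
        linarith
      · have : ind R (-x) = 1 := if_pos ⟨by linarith, by linarith⟩
        linarith
    · linarith
  rw [Sm_add (BS_ind R) hB, hneg] at this
  have e : Sm (ind R) = W R := rfl
  rw [e] at this
  linarith

lemma sy_rec (R : ℝ) (hR : 0 ≤ R) : (4 / lam) * Sm (sy R) ≤ Sm (sy (φ * R + 1)) := by
  have hb := φ_bounds
  have hφ : (0 : ℝ) < φ := by linarith
  have hl := lam_pos
  rw [Sm_rec (BS_sy (φ * R + 1))]
  have h1 : ∀ c : ℝ, |c| ≤ 1 → Sm (sy R) ≤ Sm (fun y => sy (φ * R + 1) (φ * y + c)) := by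
    intro c hc
    refine Sm_mono (BS_sy R) (BS_comp (BS_sy _) c) fun y _ => ?_
    unfold sy
    by_cases h : |y| ≤ R
    · have : |φ * y + c| ≤ φ * R + 1 := by
        have := abs_add_le (φ * y) c
        rw [abs_mul, abs_of_pos hφ] at this
        nlinarith
      rw [if_pos h, if_pos this]
    · rw [if_neg h]
      split_ifs <;> norm_num
  have a0 := h1 0 (by norm_num)
  have a1 := h1 1 (by norm_num)
  have a2 := h1 (-1) (by norm_num)
  rw [div_mul_eq_mul_div, div_eq_inv_mul]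
  exact mul_le_mul_of_nonneg_left (by linarith) (inv_pos.2 hl).le

lemma W_tendsto : Tendsto W atTop atTop := by
  have hb := φ_bounds
  have hφ : (0 : ℝ) < φ := by linarith
  have hl := lam_pos
  have hl2 := lam_lt
  have key : ∀ k : ℕ, ∃ R : ℝ, 0 ≤ R ∧ (4 / lam) ^ k * mu 0 ≤ Sm (sy R) := by
    intro k
    induction k with
    | zero =>
      refine ⟨0, le_rfl, ?_⟩
      rw [pow_zero, one_mul]
      unfold Sm
      rw [finsum_eq_single _ (0 : ℝ)]
      · simp [sy]
      · intro x hx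
        have : ¬ |x| ≤ 0 := by
          intro h
          exact hx (abs_eq_zero.1 (le_antisymm h (abs_nonneg x)))
        unfold sy
        rw [if_neg this, mul_zero]
    | succ k ih =>
      obtain ⟨R, hR, h⟩ := ih
      refine ⟨φ * R + 1, by positivity, ?_⟩
      refine le_trans ?_ (sy_rec R hR)
      calc (4 / lam) ^ (k + 1) * mu 0 = (4 / lam) * ((4 / lam) ^ k * mu 0) := by ring
        _ ≤ _ := mul_le_mul_of_nonneg_left h (by positivity)
  have h4 : 1 < 4 / lam := by rw [lt_div_iff₀ hl]; linarith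
  have hgrow : Tendsto (fun k : ℕ => (4 / lam) ^ k * mu 0) atTop atTop :=
    (tendsto_pow_atTop_atTop_of_one_lt h4).atTop_mul_const mu_zero_pos
  apply tendsto_atTop_atTop_of_monotone W_mono
  intro b
  obtain ⟨k, hk⟩ := (hgrow.eventually_ge_atTop (2 * b)).exists
  obtain ⟨R, _, hR2⟩ := key k
  refine ⟨R, ?_⟩
  have := sy_le R
  linarith

/-! ### The Fourier coefficient -/

lemma cos_ne (j : ℕ) : 0 < 2 + 2 * Real.cos (2 * Real.pi * φ ^ j) := by
  have h1 := Real.neg_one_le_cos (2 * Real.pi * φ ^ j)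
  rcases h1.lt_or_eq with h | h
  · linarith
  · exfalso
    have h2 : Real.cos (2 * Real.pi * φ ^ j - Real.pi) = 1 := by
      rw [Real.cos_sub_pi, ← h]; norm_num
    obtain ⟨k, hk⟩ := (Real.cos_eq_one_iff _).1 h2
    have hpi := Real.pi_pos
    have h3 : φ ^ j = k + 1 / 2 := by
      have : 2 * Real.pi * (φ ^ j - (k + 1 / 2)) = 0 := by linear_combination -hk
      rcases mul_eq_zero.1 this with h4 | h4
      · exact absurd h4 (by positivity)
      · linarith
    cases j with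
    | zero =>
      rw [pow_zero] at h3
      have h5 : (2 * k : ℤ) = 1 := by
        have : (2 * k : ℝ) = 1 := by linarith
        exact_mod_cast this
      omega
    | succ n =>
      have h5 := Real.goldenRatio_mul_fib_succ_add_fib n
      rw [h3] at h5
      have hf : (Nat.fib (n + 1) : ℝ) ≠ 0 := by
        have := Nat.fib_pos.2 (Nat.succ_pos n)
        exact_mod_cast this.ne'
      have h6 : φ = (((k : ℚ) + 1 / 2 - Nat.fib n) / Nat.fib (n + 1) : ℚ) := by
        push_cast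
        rw [eq_div_iff hf]
        linarith
      exact Real.goldenRatio_irrational ⟨_, h6.symm⟩

lemma chain (J : ℕ) : ∃ a b : ℝ, 0 < a ∧ ∀ R, a * C (φ ^ J) (R / φ ^ J) - b ≤ C 1 R := by
  induction J with
  | zero => exact ⟨1, 0, one_pos, fun R => by simp⟩
  | succ J ih =>
    obtain ⟨a, b, ha, h⟩ := ih
    set w := lam⁻¹ * (2 + 2 * Real.cos (2 * Real.pi * φ ^ J)) with hw
    have hw0 : 0 < w := mul_pos (inv_pos.2 lam_pos) (cos_ne J)
    refine ⟨a * w, a * (lam⁻¹ * (2 * (mu 0 * (2 * K0)))) + b, mul_pos ha hw0, fun R => ?_⟩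
    have h1 := main_rec (φ ^ J) (R / φ ^ J)
    rw [← pow_succ, div_div, ← pow_succ] at h1
    have h2 := (abs_le.1 h1).1
    have h3 := mul_le_mul_of_nonneg_left h2 ha.le
    have h4 := h R
    rw [← hw] at h3
    linarith

lemma chainW (J : ℕ) : ∃ a b : ℝ, 0 < a ∧ ∀ R, a * W R - b ≤ W (R / φ ^ J) := by
  induction J with
  | zero => exact ⟨1, 0, one_pos, fun R => by simp⟩
  | succ J ih =>
    obtain ⟨a, b, ha, h⟩ := ih
    have hl := lam_pos
    set κ := lam⁻¹ * (2 * (mu 0 * (2 * K0))) with hκ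
    refine ⟨lam / 4 * a, lam / 4 * (κ + b), by positivity, fun R => ?_⟩
    have h1 := main_rec 0 (R / φ ^ J)
    rw [zero_mul, div_div, ← pow_succ, C_zero, C_zero, mul_zero, Real.cos_zero] at h1
    have h2 := (abs_le.1 h1).2
    have h3 := h R
    rw [← hκ] at h2
    have h5 : a * W R - b ≤ κ + lam⁻¹ * (2 + 2 * 1) * W (R / φ ^ (J + 1)) := by linarith
    have h6 := mul_le_mul_of_nonneg_left h5 (show (0 : ℝ) ≤ lam / 4 by positivity)
    have h7 : lam / 4 * (κ + lam⁻¹ * (2 + 2 * 1) * W (R / φ ^ (J + 1))) =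
        lam / 4 * κ + W (R / φ ^ (J + 1)) := by
      field_simp
      ring
    rw [h7] at h6
    linarith

lemma near_int (J : ℕ) {a b : ℤ} : ∃ m : ℤ, φ ^ J * ((a : ℝ) + b * φ) + ψ ^ J * (a + b * ψ) = m := by
  have h1 := Real.goldenRatio_sq
  have h2 := Real.goldenConj_sq
  have h3 := Real.goldenRatio_add_goldenConj
  induction J using Nat.strong_induction_on with
  | _ J ih =>
    match J, ih with
    | 0, _ =>
      refine ⟨2 * a + b, ?_⟩
      push_cast
      rw [pow_zero, pow_zero]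
      linear_combination (b : ℝ) * h3
    | 1, _ =>
      refine ⟨a + 3 * b, ?_⟩
      push_cast
      rw [pow_one, pow_one]
      linear_combination (b : ℝ) * h1 + (b : ℝ) * h2 + ((a : ℝ) + b) * h3
    | J + 2, ih =>
      obtain ⟨m, hm⟩ := ih J (by omega)
      obtain ⟨m', hm'⟩ := ih (J + 1) (by omega)
      refine ⟨m + m', ?_⟩
      push_cast
      rw [← hm, ← hm', pow_succ, pow_succ, pow_succ, pow_succ, mul_assoc (φ ^ J), mul_assoc (ψ ^ J),
        ← sq, ← sq, h1, h2]
      ring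

lemma exists_J : ∃ J : ℕ, ∀ x, (∃ n, N n x ≠ 0) → 1 / 2 ≤ Real.cos (2 * Real.pi * φ ^ J * x) := by
  have hb := φ_bounds
  have hφ : (0 : ℝ) < φ := by linarith
  have hψ1 : |ψ| < 1 := by
    rw [abs_of_neg Real.goldenConj_neg]
    have := Real.neg_one_lt_goldenConj
    linarith
  have h0 : Tendsto (fun J : ℕ => |ψ| ^ J * φ ^ 2) atTop (𝓝 0) := by
    have := (tendsto_pow_atTop_nhds_zero_of_lt_one (abs_nonneg ψ) hψ1).mul_const (φ ^ 2)
    simpa using this
  obtain ⟨J, hJ⟩ := (h0.eventually (gt_mem_nhds (show (0 : ℝ) < 1 / 6 by norm_num))).exists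
  refine ⟨J, ?_⟩
  rintro x ⟨n, hn⟩
  obtain ⟨a, b, hx, hab⟩ := rep hn
  obtain ⟨m, hm⟩ := near_int J (a := a) (b := b)
  have h1 : φ ^ J * x = m - ψ ^ J * (a + b * ψ) := by rw [hx]; linarith
  have h2 : 2 * Real.pi * φ ^ J * x = m * (2 * Real.pi) - 2 * Real.pi * (ψ ^ J * (a + b * ψ)) := by
    rw [mul_assoc, h1]; ring
  rw [h2, Real.cos_int_mul_two_pi_sub, ← Real.cos_pi_div_three,
    ← Real.cos_abs (2 * Real.pi * (ψ ^ J * (↑a + ↑b * ψ)))]
  have hpi := Real.pi_pos
  apply Real.cos_le_cos_of_nonneg_of_le_pi (abs_nonneg _) (by linarith)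
  rw [abs_mul, abs_of_pos (by positivity : (0 : ℝ) < 2 * Real.pi), abs_mul, abs_pow]
  have h3 : |ψ| ^ J * |(a : ℝ) + b * ψ| ≤ 1 / 6 :=
    (mul_le_mul_of_nonneg_left hab (by positivity)).trans hJ.le
  nlinarith

lemma final_bound : ∃ δ b : ℝ, 0 < δ ∧ ∀ R, δ * W R - b ≤ C 1 R := by
  obtain ⟨J, hJ⟩ := exists_J
  obtain ⟨a, b, ha, h1⟩ := chain J
  obtain ⟨a', b', ha', h2⟩ := chainW J
  refine ⟨a * (1 / 2 * a'), a * (1 / 2 * b') + b, by positivity, fun R => ?_⟩
  have h3 : 1 / 2 * W (R / φ ^ J) ≤ C (φ ^ J) (R / φ ^ J) := by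
    unfold W C
    rw [← Sm_smul]
    refine Sm_mono (BS_smul (BS_ind _) _) (BS_mul (BS_ind _) _) fun x hx => ?_
    rw [mul_comm]
    exact mul_le_mul_of_nonneg_left (hJ x hx) (ind_nonneg _ _)
  have h4 := h1 R
  have h5 := mul_le_mul_of_nonneg_left h3 ha.le
  have h6 := mul_le_mul_of_nonneg_left (h2 R) (show (0 : ℝ) ≤ a * (1 / 2) by positivity)
  linarith

/-! ### Translation -/

lemma sum_eq (g : ℝ → ℝ) (R : ℝ) :
    ∑ᶠ x ∈ spec ∩ Icc 0 R, mu x * g x = Sm fun x => ind R x * g x := by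
  rw [finsum_mem_def]
  unfold Sm
  refine finsum_congr fun x => ?_
  by_cases hx : x ∈ spec ∩ Icc 0 R
  · rw [indicator_of_mem hx]
    have h1 : ind R x = 1 := if_pos hx.2
    show mu x * g x = mu x * (ind R x * g x)
    rw [h1, one_mul]
  · rw [indicator_of_notMem hx]
    by_cases h0 : mu x = 0
    · rw [h0, zero_mul]
    · have h1 : x ∈ spec := (mem_spec_iff x).2 (mu_ne h0)
      have h2 : ¬ (0 ≤ x ∧ x ≤ R) := fun h => hx ⟨h1, h⟩
      have h3 : ind R x = 0 := if_neg h2
      show 0 = mu x * (ind R x * g x)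
      rw [h3, zero_mul, mul_zero]

lemma spec_fin (R : ℝ) : (spec ∩ Icc 0 R).Finite := by
  refine (fin_spec R).subset ?_
  rintro x ⟨hx, hx2⟩
  refine ⟨(mem_spec_iff x).1 hx, ?_⟩
  rw [abs_of_nonneg hx2.1]
  exact hx2.2

/-- Let `λ` be the exponential growth rate of `N n 0` and `μ x` the limit of `λ^(-n) N n x`; these
exist. The probability measures obtained by normalising the image modulo one of the restriction to
`[0,n]` of the weights `μ` on the spectrum of the golden mean do not converge to Lebesgue measure. -/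
theorem result : ∃ lam : ℝ, 0 < lam ∧
    Tendsto (fun n : ℕ => (N n 0 : ℝ) ^ (1 / (n : ℝ))) atTop (𝓝 lam) ∧
    ∃ mu : ℝ → ℝ, (∀ x ∈ spec, Tendsto (fun n : ℕ => (N n x : ℝ) / lam ^ n) atTop (𝓝 (mu x))) ∧
      (∀ n : ℕ, (spec ∩ Icc (0 : ℝ) n).Finite ∧ 0 < ∑ᶠ x ∈ spec ∩ Icc (0 : ℝ) n, mu x) ∧
      ∃ f : ℝ → ℝ, Continuous f ∧ ∃ ε : ℝ, 0 < ε ∧ ∀ᶠ n : ℕ in atTop,
        ε ≤ |(∑ᶠ x ∈ spec ∩ Icc (0 : ℝ) n, mu x * f (Int.fract x)) /
          (∑ᶠ x ∈ spec ∩ Icc (0 : ℝ) n, mu x) - ∫ t in (0 : ℝ)..1, f t| := by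
  have hW : ∀ n : ℕ, ∑ᶠ x ∈ spec ∩ Icc (0 : ℝ) n, mu x = W n := by
    intro n
    have := sum_eq (fun _ => 1) n
    simp only [mul_one] at this
    exact this
  refine ⟨lam, lam_pos, growth, mu, fun x _ => mu_spec x, fun n => ⟨spec_fin n, ?_⟩,
    fun t => Real.cos (2 * Real.pi * t), by fun_prop, ?_⟩
  · rw [hW]
    have h1 : W 0 ≤ W n := W_mono (Nat.cast_nonneg n)
    have h2 : W 0 = mu 0 := by
      unfold W Sm
      rw [finsum_eq_single _ (0 : ℝ)]
      · simp [ind]
      · intro x hx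
        unfold ind
        rw [if_neg (fun h => hx (le_antisymm h.2 h.1)), mul_zero]
    rw [h2] at h1
    exact lt_of_lt_of_le mu_zero_pos h1
  · obtain ⟨δ, b, hδ, hb⟩ := final_bound
    refine ⟨δ / 2, by positivity, ?_⟩
    have hint : ∫ t in (0 : ℝ)..1, Real.cos (2 * Real.pi * t) = 0 := by
      have h2pi : (2 * Real.pi) ≠ 0 := by positivity
      rw [intervalIntegral.integral_comp_mul_left (fun u => Real.cos u) h2pi]
      simp
    rw [hint]
    have hC : ∀ n : ℕ, ∑ᶠ x ∈ spec ∩ Icc (0 : ℝ) n, mu x * Real.cos (2 * Real.pi * Int.fract x) =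
        C 1 n := by
      intro n
      rw [sum_eq]
      unfold C
      congr 1
      funext x
      congr 1
      have : 2 * Real.pi * Int.fract x = 2 * Real.pi * 1 * x - (⌊x⌋ : ℝ) * (2 * Real.pi) := by
        rw [Int.fract]; ring
      rw [this, Real.cos_sub_int_mul_two_pi]
    have hWt : Tendsto (fun n : ℕ => W n) atTop atTop := W_tendsto.comp tendsto_natCast_atTop_atTop
    filter_upwards [hWt.eventually_ge_atTop (2 * |b| / δ), hWt.eventually_gt_atTop 0] with n hn hn0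
    rw [hC, hW, sub_zero]
    refine le_trans ?_ (le_abs_self _)
    rw [le_div_iff₀ hn0]
    have h1 := hb n
    rw [div_le_iff₀ hδ] at hn
    have h2 := le_abs_self b
    linarith

end Pool.Agent.Results.MP_287b0d_an.NotEquidistributed
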